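import Pool.Agent.Q157.SC.Stm

/-!
# Project SC (helper157): permutations of odd order
-/

set_option autoImplicit false

namespace Pool.Agent.Q153.SC

open Equiv Pool.Agent.Q157.SC

theorem sq_mem {V : Type} (f : Perm V) (A : Set V) (h : OP f) (hA : ∀ x ∈ A, f (f x) ∈ A) :
    ∀ x ∈ A, f x ∈ A := by
  obtain ⟨m, ⟨k, hk⟩, hm⟩ := h
  have h1 : ∀ j : ℕ, ∀ x ∈ A, (f ^ (2 * j)) x ∈ A := by
    intro j
    induction j with
    | zero =>
      intro x hx
      rw [mul_zero, pow_zero]
      exact hx
    | succ j ih =>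
      intro x hx
      have e : (f ^ (2 * (j + 1))) x = (f ^ (2 * j)) (f (f x)) := by
        rw [mul_add, mul_one, pow_add, pow_two, Perm.mul_apply, Perm.mul_apply]
      rw [e]
      exact ih _ (hA x hx)
  intro x hx
  have h2 := h1 (k + 1) x hx
  have e : f ^ (2 * (k + 1)) = f := by
    have : 2 * (k + 1) = m + 1 := by omega
    rw [this, pow_succ, hm, one_mul]
  rwa [e] at h2

theorem sign_one {n : ℕ} {f : Perm (Fin n)} (h : OP f) : Perm.sign f = 1 := by
  obtain ⟨m, hodd, hm⟩ := h
  have h1 : Perm.sign f ^ m = 1 := by rw [← map_pow, hm, map_one]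
  rcases Int.units_eq_one_or (Perm.sign f) with h2 | h2
  · exact h2
  · rw [h2, Odd.neg_one_pow hodd] at h1
    exact absurd h1 (by decide)

theorem comm3 : ∀ n : ℕ, n ≤ 3 → ∀ f g : Perm (Fin n), Perm.sign f = 1 → Perm.sign g = 1 → f * g = g * f := by
  intro n hn
  have : n = 0 ∨ n = 1 ∨ n = 2 ∨ n = 3 := by omega
  rcases this with rfl | rfl | rfl | rfl
  · decide +kernel
  · decide +kernel
  · decide +kernel
  · decide +kernel

theorem op_congr {V W : Type} (e : V ≃ W) {f : Perm V} (h : OP f) : OP (e.permCongr f) := by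
  obtain ⟨m, hodd, hm⟩ := h
  refine ⟨m, hodd, ?_⟩
  have h1 := map_pow e.permCongrHom f m
  rw [hm, map_one] at h1
  exact h1.symm

theorem gen : S_gen := by
  refine ⟨fun V f A h hA => sq_mem f A h hA, fun V _ f g hV hf hg => ?_⟩
  have e := Finite.equivFin V
  have h1 := comm3 (Nat.card V) hV (e.permCongr f) (e.permCongr g) (sign_one (op_congr e hf))
    (sign_one (op_congr e hg))
  have h2 : e.permCongrHom (f * g) = e.permCongrHom (g * f) := by
    rw [map_mul, map_mul]
    exact h1
  exact e.permCongrHom.injective h2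

end Pool.Agent.Q153.SC
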